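import Pool.Agent.Q181.Arc.Curve
import Pool.Agent.Q181.Arc.LogLift

/-!
# Shadows of Vietoris-Rips complexes of samples of a bi-Lipschitz arc

A planar arc `M` which satisfies all standing assumptions but for which the shadows of
Vietoris-Rips complexes of arbitrarily fine samples are not homotopy equivalent to `M` for
arbitrarily small scales.
-/

open Set Topology Filter Q181.Arc

namespace Pool.Agent.Results.MP_320b68_gt.ShadowNotHomotopyEquivalent

/-- The identification of `ℂ` with the Euclidean plane. -/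
noncomputable def J : ℂ ≃ₗᵢ[ℝ] EuclideanSpace ℝ (Fin 2) := Complex.orthonormalBasisOneI.repr

/-- The arc in the Euclidean plane. -/
noncomputable def arc (t : ℝ) : EuclideanSpace ℝ (Fin 2) := J (gam t)

lemma arc_radial : RadialArc arc 700 where
  norm_eq t ht := by rw [arc, LinearIsometryEquiv.norm_map, norm_gam, abs_of_nonneg ht.1]
  lip := LipschitzOnWith.of_dist_le_mul fun x _ y _ => by
    rw [arc, arc, LinearIsometryEquiv.dist_map, dist_eq_norm, Real.dist_eq]
    exact gam_lip y x

/-- The compact set. -/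
noncomputable def Mset : Set (EuclideanSpace ℝ (Fin 2)) := arc '' Icc 0 1

lemma segment_subset_shadow {S : Set (EuclideanSpace ℝ (Fin 2))} {β : ℝ}
    {p q : EuclideanSpace ℝ (Fin 2)} (hp : p ∈ S) (hq : q ∈ S) (h : dist p q < β) :
    segment ℝ p q ⊆ shadow (rips S β) := by
  classical
  intro x hx
  refine mem_iUnion₂.2 ⟨{p, q}, ⟨⟨p, by simp⟩, ?_, ?_⟩, ?_⟩
  · intro z hz
    simp only [Finset.coe_insert, Finset.coe_singleton, mem_insert_iff, mem_singleton_iff] at hz
    rcases hz with rfl | rfl <;> assumption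
  · rw [Finset.coe_insert, Finset.coe_singleton, Metric.diam_pair]; exact h
  · rw [Finset.coe_insert, Finset.coe_singleton, convexHull_pair]; exact hx

lemma mem_shadow_near {S : Set (EuclideanSpace ℝ (Fin 2))} {β : ℝ}
    {x : EuclideanSpace ℝ (Fin 2)} (hx : x ∈ shadow (rips S β)) :
    ∃ p ∈ S, dist x p < β := by
  obtain ⟨σ, ⟨⟨p, hp⟩, hσS, hσd⟩, hxσ⟩ := mem_iUnion₂.1 hx
  refine ⟨p, hσS hp, lt_of_le_of_lt ?_ hσd⟩
  have h1 : convexHull ℝ (σ : Set (EuclideanSpace ℝ (Fin 2))) ⊆
      Metric.closedBall p (Metric.diam (σ : Set (EuclideanSpace ℝ (Fin 2)))) := by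
    refine convexHull_min (fun q hq => ?_) (convex_closedBall _ _)
    rw [Metric.mem_closedBall]
    exact Metric.dist_le_diam_of_mem σ.finite_toSet.isBounded hq hp
  exact h1 hxσ

/-- Shadows with a sample containing a full turn at the right scale are not contractible. -/
theorem not_hequiv (k n m : ℕ) (hm : 0 < m) (hn : n = 100 * 4 ^ (k + 1) * m)
    (hmesh : 700 / (n : ℝ) < aa k / 50)
    (hlift : ∀ s ∈ Icc (aa k) (bb k), ∀ t ∈ Icc (aa k) (bb k), |t - s| ≤ 1 / n →
      ‖lift k t - lift k s‖ < 1)
    (S : Set (EuclideanSpace ℝ (Fin 2)))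
    (hS : S = (fun j : ℕ => arc (j / n)) '' Iic n) :
    ¬ Nonempty (ContinuousMap.HomotopyEquiv (shadow (rips S (aa k / 50))) Mset) := by
  rintro ⟨e⟩
  set β := aa k / 50 with hβ
  set A := shadow (rips S β) with hA
  have ha := aa_pos k
  have hn0 : 0 < (n : ℝ) := by rw [hn]; positivity
  -- the hole
  let z : ℂ := ((-(aa k / 2) : ℝ) : ℂ)
  have hfar : ∀ x ∈ A, J.symm x - z ≠ 0 := by
    intro x hx h0
    obtain ⟨p, hp, hxp⟩ := mem_shadow_near hx
    rw [hS] at hp
    obtain ⟨j, -, rfl⟩ := hp
    have h1 : J.symm x = z := sub_eq_zero.1 h0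
    have h2 : dist x (arc (j / n)) = ‖gam (j / n) - z‖ := by
      have : x = J z := by rw [← h1, LinearIsometryEquiv.apply_symm_apply]
      simp only [arc]
      rw [this, LinearIsometryEquiv.dist_map, dist_comm, dist_eq_norm]
    have h3 := gam_far k (t := (j : ℝ) / n) (by positivity)
    rw [h2] at hxp
    simp only [z, β] at hxp
    linarith
  -- nodes
  have hnode : ∀ j ≤ n, arc (j / n) ∈ S := by
    intro j hj
    rw [hS]
    exact ⟨j, hj, rfl⟩
  have hstep : ∀ j : ℕ, ‖gam (((j + 1 : ℕ) : ℝ) / n) - gam ((j : ℝ) / n)‖ < β := by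
    intro j
    refine lt_of_le_of_lt (gam_lip _ _) ?_
    have : ((j + 1 : ℕ) : ℝ) / n - (j : ℝ) / n = 1 / n := by push_cast; ring
    rw [this, abs_of_pos (by positivity)]
    calc (700 : ℝ) * (1 / n) = 700 / n := by ring
      _ < β := hmesh
  have hself : ∀ j ≤ n, arc (j / n) ∈ A := by
    intro j hj
    exact segment_subset_shadow (hnode j hj) (hnode j hj) (by rw [dist_self]; positivity)
      (left_mem_segment _ _ _)
  -- the identity of the shadow is null-homotopic
  let x0 : A := ⟨arc ((0 : ℕ) / n), hself 0 (Nat.zero_le _)⟩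
  have hnull : (ContinuousMap.const A x0).Homotopic (ContinuousMap.id A) := by
    have h1 : (ContinuousMap.const A (e.toFun x0)).Homotopic e.toFun :=
      arc_radial.homotopic _ _
    have h2 : (e.invFun.comp (ContinuousMap.const A (e.toFun x0))).Homotopic
        (e.invFun.comp e.toFun) := ContinuousMap.Homotopic.comp (.refl _) h1
    have h3 := h2.trans e.left_inv
    -- the constant can be moved to `x0`
    have h4 : (ContinuousMap.const A (e.invFun (e.toFun x0))).Homotopic (ContinuousMap.id A) := h3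
    have h5 : (ContinuousMap.const A x0).Homotopic
        (ContinuousMap.const A (e.invFun (e.toFun x0))) := by
      have := ContinuousMap.Homotopic.comp h4 (ContinuousMap.Homotopic.refl (ContinuousMap.const A x0))
      exact this.symm
    exact h5.trans h4
  let F : C(A, {w : ℂ // w ≠ 0}) :=
    ⟨fun x => ⟨J.symm x - z, hfar x x.2⟩, by
      refine Continuous.subtype_mk ?_ _
      exact (J.symm.continuous.comp continuous_subtype_val).sub continuous_const⟩
  obtain ⟨g, hg⟩ := exists_log x0 hnull F
  -- increments along short segments of the shadow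
  have hseg : ∀ p q : ℂ, ∀ (hp : J p ∈ A) (hq : J q ∈ A), segment ℝ (J p) (J q) ⊆ A →
      ‖q - p‖ < ‖p - z‖ → g ⟨J q, hq⟩ - g ⟨J p, hp⟩ = Complex.log ((q - z) / (p - z)) := by
    intro p q hp hq hsub hlt
    let x : C(unitInterval, A) :=
      ⟨fun τ => ⟨AffineMap.lineMap (J p) (J q) (τ : ℝ), hsub (by
          rw [segment_eq_image_lineMap]; exact ⟨τ, τ.2, rfl⟩)⟩, by
        refine Continuous.subtype_mk ?_ _
        exact (AffineMap.lineMap_continuous).comp continuous_subtype_val⟩
    have hFx : ∀ τ : unitInterval, ((F (x τ)) : ℂ) = p + (τ : ℝ) * (q - p) - z := by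
      intro τ
      change J.symm (AffineMap.lineMap (J p) (J q) (τ : ℝ)) - z = _
      rw [AffineMap.lineMap_apply_module', map_add, map_smul, map_sub,
        LinearIsometryEquiv.symm_apply_apply, LinearIsometryEquiv.symm_apply_apply]
      rw [Complex.real_smul]
      ring
    have h1 := log_increment hg x (by
      intro τ
      rw [hFx, hFx]
      have h2 : p + (τ : ℝ) * (q - p) - z - (p + ((0 : unitInterval) : ℝ) * (q - p) - z) =
          (τ : ℝ) * (q - p) := by simp
      have h3 : p + (((0 : unitInterval) : ℝ) : ℂ) * (q - p) - z = p - z := by simp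
      rw [h2, h3, norm_mul, Complex.norm_real, Real.norm_eq_abs, abs_of_nonneg τ.2.1]
      refine lt_of_le_of_lt ?_ hlt
      exact mul_le_of_le_one_left (norm_nonneg _) τ.2.2)
    have h0 : x 0 = ⟨J p, hp⟩ := Subtype.ext (by simp [x])
    have h0' : x 1 = ⟨J q, hq⟩ := Subtype.ext (by simp [x])
    rw [hFx, hFx, h0, h0'] at h1
    rw [h1]
    congr 2
    · simp
    · simp
  -- the discrete lift along the turn
  have hjn : 101 * m ≤ n := by
    rw [hn]
    have : 4 ≤ 4 ^ (k + 1) := by
      calc 4 = 4 ^ 1 := by norm_num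
        _ ≤ 4 ^ (k + 1) := Nat.pow_le_pow_right (by norm_num) (by omega)
    nlinarith
  have haa : ((100 * m : ℕ) : ℝ) / n = aa k := by
    rw [hn, aa]
    have hm' : (m : ℝ) ≠ 0 := by exact_mod_cast hm.ne'
    push_cast
    rw [one_div, inv_pow]
    field_simp
  have hbb : ((101 * m : ℕ) : ℝ) / n = bb k := by
    rw [bb, ← haa]
    push_cast
    ring
  have hin : ∀ j : ℕ, 100 * m ≤ j → j ≤ 101 * m → (j : ℝ) / n ∈ Icc (aa k) (bb k) := by
    intro j h1 h2
    rw [← haa, ← hbb]
    constructor
    · exact div_le_div_of_nonneg_right (by exact_mod_cast h1) hn0.le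
    · exact div_le_div_of_nonneg_right (by exact_mod_cast h2) hn0.le
  have hkey : ∀ i : ℕ, ∀ hi : i ≤ m,
      g ⟨arc (((100 * m + i : ℕ) : ℝ) / n), hself _ (by omega)⟩ -
        lift k (((100 * m + i : ℕ) : ℝ) / n) =
      g ⟨arc (((100 * m : ℕ) : ℝ) / n), hself _ (by omega)⟩ - lift k (((100 * m : ℕ) : ℝ) / n) := by
    intro i
    induction i with
    | zero => intro _; rfl
    | succ i ih =>
      intro hi
      rw [← ih (by omega)]
      set s : ℝ := ((100 * m + i : ℕ) : ℝ) / n with hs
      set t : ℝ := ((100 * m + (i + 1) : ℕ) : ℝ) / n with ht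
      have hs' : s ∈ Icc (aa k) (bb k) := hin _ (by omega) (by omega)
      have ht' : t ∈ Icc (aa k) (bb k) := hin _ (by omega) (by omega)
      have h1 : dist (arc s) (arc t) < β := by
        rw [arc, arc, LinearIsometryEquiv.dist_map, dist_comm, dist_eq_norm]
        exact hstep (100 * m + i)
      have h2 := hseg (gam s) (gam t) (hself _ (by omega)) (hself _ (by omega))
        (segment_subset_shadow (hnode _ (by omega)) (hnode _ (by omega)) h1) (by
          refine (hstep (100 * m + i)).trans ?_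
          have := gam_far k (t := s) (ha.le.trans hs'.1)
          simp only [β, z]
          linarith)
      have h3 : lift k t - lift k s = Complex.log ((gam t - z) / (gam s - z)) := by
        rw [← exp_lift hs', ← exp_lift ht', ← Complex.exp_sub]
        have h4 : ‖lift k t - lift k s‖ < 1 := by
          refine hlift s hs' t ht' ?_
          have : t - s = 1 / n := by rw [ht, hs]; push_cast; ring
          rw [this, abs_of_pos (by positivity)]
        have h5 := Complex.abs_im_le_norm (lift k t - lift k s)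
        have h6 := abs_lt.1 (lt_of_le_of_lt h5 h4)
        have h7 := Real.pi_gt_three
        rw [Complex.log_exp (by linarith) (by linarith)]
      have h4 : g ⟨arc t, hself _ (by omega)⟩ - g ⟨arc s, hself _ (by omega)⟩ =
          lift k t - lift k s := by rw [h3, ← h2]; rfl
      linear_combination h4
  have hend := hkey m le_rfl
  -- the closing segment
  have hab : ∀ x : ℝ, x = aa k ∨ x = bb k → gam x = x := by
    rintro x (rfl | rfl)
    · exact gam_aa k
    · exact gam_bb k
  have h101 : 100 * m + m = 101 * m := by ring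
  have hb0 := aa_lt_bb k
  have hb1 : 0 < bb k := ha.trans hb0
  have hdist : ‖gam (bb k) - gam (aa k)‖ = aa k / 100 := by
    rw [gam_aa, gam_bb]
    have : (bb k : ℂ) - (aa k : ℂ) = ((aa k / 100 : ℝ) : ℂ) := by
      rw [bb]; push_cast; ring
    rw [this, Complex.norm_real, Real.norm_eq_abs, abs_of_pos (by positivity)]
  have hmemA : arc (aa k) ∈ S := by rw [← haa]; exact hnode _ (by omega)
  have hmemB : arc (bb k) ∈ S := by rw [← hbb]; exact hnode _ hjn
  have hmemA' : arc (aa k) ∈ A := by rw [← haa]; exact hself _ (by omega)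
  have hmemB' : arc (bb k) ∈ A := by rw [← hbb]; exact hself _ hjn
  have hclose := hseg (gam (aa k)) (gam (bb k)) hmemA' hmemB'
    (segment_subset_shadow hmemA hmemB (by
      rw [LinearIsometryEquiv.dist_map, dist_comm, dist_eq_norm, hdist]
      simp only [β]; linarith)) (by
      rw [hdist]
      have := gam_far k (t := aa k) ha.le
      simp only [z]
      linarith)
  have hreal : (Complex.log ((gam (bb k) - z) / (gam (aa k) - z))).im = 0 := by
    rw [gam_aa, gam_bb]
    have : ((bb k : ℂ) - z) / ((aa k : ℂ) - z) =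
        (((bb k + aa k / 2) / (aa k + aa k / 2) : ℝ) : ℂ) := by
      simp only [z]; push_cast; ring
    rw [this, ← Complex.ofReal_log (by positivity)]
    simp
  have e1 : (⟨arc (((100 * m + m : ℕ) : ℝ) / n), hself _ (by omega)⟩ : A) =
      ⟨J (gam (bb k)), hmemB'⟩ := by
    apply Subtype.ext
    change arc _ = arc _
    rw [h101, hbb]
  have e2 : (⟨arc (((100 * m : ℕ) : ℝ) / n), hself _ (by omega)⟩ : A) =
      ⟨J (gam (aa k)), hmemA'⟩ := by
    apply Subtype.ext
    change arc _ = arc _
    rw [haa]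
  rw [e1, e2, h101, hbb, haa] at hend
  have h1 : lift k (bb k) - lift k (aa k) = Complex.log ((gam (bb k) - z) / (gam (aa k) - z)) := by
    rw [← hclose]; linear_combination -hend
  have h2 := congrArg Complex.im h1
  rw [hreal, Complex.sub_im, lift_im] at h2
  have := Real.pi_pos
  linarith

/-- There is a planar arc `M` satisfying all standing assumptions such that for arbitrarily small
`β > 0` and every `η > 0` some finite `S ⊆ M` at Hausdorff distance less than `η` from `M` has a
Vietoris-Rips shadow at scale `β` which is not homotopy equivalent to `M`. -/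
theorem result.{u} : ∃ (N : ℕ) (M : Set (EuclideanSpace ℝ (Fin N))), Admissible.{u} M ∧
    ∀ β₀ > 0, ∃ β, 0 < β ∧ β < β₀ ∧ ∀ η > 0, ∃ S : Set (EuclideanSpace ℝ (Fin N)),
      S.Finite ∧ S.Nonempty ∧ S ⊆ M ∧ Metric.hausdorffDist S M < η ∧
        ¬ Nonempty (ContinuousMap.HomotopyEquiv (shadow (rips S β)) M) := by
  refine ⟨2, Mset, arc_radial.admissible, fun β₀ hβ₀ => ?_⟩
  -- the scale
  obtain ⟨k, hk⟩ : ∃ k, aa k < β₀ := by
    obtain ⟨k, hk⟩ := exists_pow_lt_of_lt_one hβ₀ (show (1 / 4 : ℝ) < 1 by norm_num)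
    refine ⟨k, lt_of_le_of_lt ?_ hk⟩
    rw [aa, pow_succ]
    have : (0 : ℝ) < (1 / 4) ^ k := by positivity
    linarith
  have ha := aa_pos k
  refine ⟨aa k / 50, by positivity, by linarith, fun η hη => ?_⟩
  -- uniform continuity of the lift
  have huc := isCompact_Icc.uniformContinuousOn_of_continuous (lift_continuousOn k)
  rw [Metric.uniformContinuousOn_iff] at huc
  obtain ⟨δ, hδ, hδ'⟩ := huc 1 one_pos
  -- the mesh
  set μ := min (min (η / 1400) (aa k / 50000)) (δ / 2) with hμ
  have hμ0 : 0 < μ := by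
    refine lt_min (lt_min ?_ ?_) ?_ <;> positivity
  obtain ⟨m, hm⟩ := exists_nat_one_div_lt hμ0
  set n := 100 * 4 ^ (k + 1) * (m + 1) with hn
  have hn0 : 0 < (n : ℝ) := by rw [hn]; positivity
  have hnm : (m : ℝ) + 1 ≤ n := by
    rw [hn]
    push_cast
    have h4 : (1 : ℝ) ≤ 4 ^ (k + 1) := one_le_pow₀ (by norm_num)
    have h5 : (0 : ℝ) ≤ m := Nat.cast_nonneg m
    nlinarith
  have hnμ : 1 / (n : ℝ) < μ :=
    lt_of_le_of_lt (one_div_le_one_div_of_le (by positivity) hnm) hm
  have h1 : 1 / (n : ℝ) < η / 1400 := hnμ.trans_le ((min_le_left _ _).trans (min_le_left _ _))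
  have h2 : 1 / (n : ℝ) < aa k / 50000 := hnμ.trans_le ((min_le_left _ _).trans (min_le_right _ _))
  have h3 : 1 / (n : ℝ) < δ / 2 := hnμ.trans_le (min_le_right _ _)
  have h700 : 700 / (n : ℝ) = 700 * (1 / n) := by ring
  have hnode : ∀ j : ℕ, j ≤ n → (j : ℝ) / n ∈ Icc (0 : ℝ) 1 := by
    intro j hj
    refine ⟨by positivity, (div_le_one hn0).2 (by exact_mod_cast hj)⟩
  refine ⟨(fun j : ℕ => arc (j / n)) '' Iic n, (finite_Iic n).image _, ⟨_, 0, by simp, rfl⟩,
    ?_, ?_, ?_⟩
  · rintro _ ⟨j, hj, rfl⟩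
    exact ⟨_, hnode j hj, rfl⟩
  · have hle : Metric.hausdorffDist ((fun j : ℕ => arc (j / n)) '' Iic n) Mset ≤ 700 / n := by
      refine Metric.hausdorffDist_le_of_mem_dist (by positivity) ?_ ?_
      · rintro _ ⟨j, hj, rfl⟩
        exact ⟨_, ⟨_, hnode j hj, rfl⟩, by rw [dist_self]; positivity⟩
      · rintro _ ⟨t, ht, rfl⟩
        have h4 := Nat.floor_le (mul_nonneg hn0.le ht.1)
        have h5 := Nat.lt_floor_add_one ((n : ℝ) * t)
        refine ⟨arc ((⌊(n : ℝ) * t⌋₊ : ℝ) / n), ⟨⌊(n : ℝ) * t⌋₊, ?_, rfl⟩, ?_⟩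
        · refine Nat.floor_le_of_le ?_
          nlinarith [ht.2]
        · rw [arc, arc, LinearIsometryEquiv.dist_map, dist_eq_norm]
          refine (gam_lip _ _).trans ?_
          rw [h700]
          refine mul_le_mul_of_nonneg_left ?_ (by norm_num)
          rw [abs_le]
          constructor
          · have : (⌊(n : ℝ) * t⌋₊ : ℝ) / n ≤ t := by rw [div_le_iff₀ hn0]; linarith
            have : 0 ≤ 1 / (n : ℝ) := by positivity
            linarith
          · have : t < ((⌊(n : ℝ) * t⌋₊ : ℝ) + 1) / n := by rw [lt_div_iff₀ hn0]; linarith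
            rw [add_div] at this
            linarith
    refine lt_of_le_of_lt hle ?_
    rw [h700]; linarith
  · refine not_hequiv k n (m + 1) (Nat.succ_pos m) hn ?_ ?_ _ rfl
    · rw [h700]; linarith
    · intro s hs t ht hst
      have := hδ' t ht s hs (by rw [Real.dist_eq]; linarith)
      rwa [dist_eq_norm] at this

end Pool.Agent.Results.MP_320b68_gt.ShadowNotHomotopyEquivalent
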